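import Pool.Agent.H20.RT.Stmts

/-! Row FIN of board rt (MP_a315fd_nt): the final estimate. -/

set_option autoImplicit false

namespace Pool.RT

theorem FIN_thm (h1 : CTLStmt) : FINStmt := by
  obtain ⟨N0, hN0⟩ : ∃ N0 : ℕ, N0 = 10 ^ 8 := ⟨_, rfl⟩
  refine ⟨200000, 10 ^ N0, fun t0 ht0 X hX => ?_⟩
  have hX1 : 1 ≤ X := le_trans (Nat.one_le_pow _ _ (by norm_num)) hX
  have hX0 : X ≠ 0 := by omega
  obtain ⟨L, hL⟩ : ∃ L, L = Nat.log 10 X := ⟨_, rfl⟩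
  have hL1 : 10 ^ L ≤ X := by rw [hL]; exact Nat.pow_log_le_self 10 hX0
  have hL2 : X < 10 ^ (L + 1) := by rw [hL]; exact Nat.lt_pow_succ_log_self (by norm_num) X
  have hL3 : N0 ≤ L := by
    rw [hL]
    exact Nat.le_log_of_pow_le (by norm_num) hX
  obtain ⟨s, hs⟩ : ∃ s, s = Nat.sqrt L := ⟨_, rfl⟩
  have hs1 : s * s ≤ L := by rw [hs]; exact Nat.sqrt_le L
  have hs2 : L < (s + 1) * (s + 1) := by rw [hs]; exact Nat.lt_succ_sqrt L
  have hs3 : 10 ^ 4 ≤ s := by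
    rw [hs, Nat.le_sqrt]
    calc 10 ^ 4 * 10 ^ 4 = 10 ^ 8 := by norm_num
      _ = N0 := hN0.symm
      _ ≤ L := hL3
  have hs4 : 9200 * (s + 1) + 2 ≤ L := by nlinarith
  obtain ⟨h, hh⟩ : ∃ h, h = (L - 9200 * (s + 1) - 2) / 2 := ⟨_, rfl⟩
  have hh1 : 9200 * (s + 1) + 2 * h + 2 ≤ L := by omega
  have hh2 : L + 1 ≤ 2 * h + (9200 * (s + 1) + 4) := by omega
  have hh3 : h < (s + 1) * (s + 1) := by omega
  have hc := h1 t0 ht0 h (s + 1) (by omega) hh3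
  obtain ⟨B, hB⟩ : ∃ B : Set ℕ, B = {n : ℕ | 1 ≤ n ∧ n ≤ X ∧
    ∃ k : ℕ, T^[k] n = Wd (t0 + 2) 3 0 0 0 0 0 0 0} := ⟨_, rfl⟩
  rw [← hB]
  have hBfin : B.Finite := by
    rw [hB]
    exact (Set.finite_Iic X).subset fun n hn => hn.2.1
  have hsub : {n : ℕ | 1 ≤ n ∧ n < 10 ^ (9200 * (s + 1) + 2 * h + 2) ∧
      ∃ k : ℕ, T^[k] n = Wd (t0 + 2) 3 0 0 0 0 0 0 0} ⊆ B := by
    rw [hB]
    rintro n ⟨hn1, hn2, hn3⟩
    refine ⟨hn1, ?_, hn3⟩
    exact (hn2.le.trans (Nat.pow_le_pow_right (by norm_num) hh1)).trans hL1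
  have hcard := Set.ncard_le_ncard hsub hBfin
  -- natural number estimate
  obtain ⟨m, hm⟩ : ∃ m, m = 9200 * (s + 1) + 4 := ⟨_, rfl⟩
  have e1 : X ≤ 10 ^ (2 * h) * 10 ^ m := by
    rw [← pow_add, hm]
    exact hL2.le.trans (Nat.pow_le_pow_right (by norm_num) hh2)
  have e2 : 4 * 10 ^ (2 * h) ≤ 5 * B.ncard := hc.trans (Nat.mul_le_mul_left 5 hcard)
  have e3 : X ≤ B.ncard * 10 ^ (m + 1) := by
    have e4 : 4 * X ≤ 5 * (B.ncard * 10 ^ m) :=
      calc 4 * X ≤ 4 * (10 ^ (2 * h) * 10 ^ m) := Nat.mul_le_mul_left 4 e1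
        _ = 4 * 10 ^ (2 * h) * 10 ^ m := by ring
        _ ≤ 5 * B.ncard * 10 ^ m := Nat.mul_le_mul_right _ e2
        _ = 5 * (B.ncard * 10 ^ m) := by ring
    have e5 : B.ncard * 10 ^ (m + 1) = 10 * (B.ncard * 10 ^ m) := by
      rw [pow_succ]
      ring
    rw [e5]
    omega
  have hmr : (m : ℝ) = 9200 * ((s : ℝ) + 1) + 4 := by
    rw [hm]
    push_cast
    ring
  clear hm hh1 hh2 hh3 hh hc hsub hcard hs4
  -- real estimates
  have hXr : (0 : ℝ) < X := by exact_mod_cast hX1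
  have hl10 : (1 : ℝ) ≤ Real.log 10 := by
    rw [Real.le_log_iff_exp_le (by norm_num)]
    have := Real.exp_one_lt_d9
    linarith
  have hl10' : Real.log 10 ≤ 9 := by
    have := Real.log_le_sub_one_of_pos (show (0 : ℝ) < 10 by norm_num)
    linarith
  have hlogX : (L : ℝ) ≤ Real.log X := by
    have f1 : Real.log ((10 : ℝ) ^ L) ≤ Real.log X := by
      apply Real.log_le_log (by positivity)
      exact_mod_cast hL1
    rw [Real.log_pow] at f1
    have f2 : (L : ℝ) * 1 ≤ L * Real.log 10 := mul_le_mul_of_nonneg_left hl10 (Nat.cast_nonneg L)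
    linarith
  have hS : (s : ℝ) ≤ Real.sqrt (Real.log X) := by
    apply Real.le_sqrt_of_sq_le
    have f1 : ((s * s : ℕ) : ℝ) ≤ (L : ℝ) := by exact_mod_cast hs1
    push_cast at f1
    nlinarith
  have hs5 : (1 : ℝ) ≤ s := by
    have : 1 ≤ s := by omega
    exact_mod_cast this
  have hpow : (10 : ℝ) ^ (m + 1) ≤ Real.exp (200000 * Real.sqrt (Real.log X)) := by
    have f0 : (10 : ℝ) ^ (m + 1) = Real.exp ((m + 1 : ℕ) * Real.log 10) := by
      rw [Real.exp_nat_mul, Real.exp_log (by norm_num)]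
    rw [f0]
    apply Real.exp_le_exp.2
    rw [Nat.cast_add, Nat.cast_one, hmr]
    have f1 : (9200 * ((s : ℝ) + 1) + 4 + 1) * Real.log 10 ≤ (9200 * ((s : ℝ) + 1) + 4 + 1) * 9 :=
      mul_le_mul_of_nonneg_left hl10' (by linarith)
    linarith
  have e7 : (X : ℝ) ≤ (B.ncard : ℝ) * 10 ^ (m + 1) := by exact_mod_cast e3
  calc (X : ℝ) * Real.exp (-200000 * Real.sqrt (Real.log X))
      ≤ ((B.ncard : ℝ) * 10 ^ (m + 1)) *
        Real.exp (-200000 * Real.sqrt (Real.log X)) :=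
        mul_le_mul_of_nonneg_right e7 (Real.exp_pos _).le
    _ ≤ ((B.ncard : ℝ) * Real.exp (200000 * Real.sqrt (Real.log X))) *
        Real.exp (-200000 * Real.sqrt (Real.log X)) :=
        mul_le_mul_of_nonneg_right (mul_le_mul_of_nonneg_left hpow (Nat.cast_nonneg _))
          (Real.exp_pos _).le
    _ = (B.ncard : ℝ) := by
        rw [mul_assoc, ← Real.exp_add]
        have : 200000 * Real.sqrt (Real.log X) + -200000 * Real.sqrt (Real.log X) = 0 := by ring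
        rw [this, Real.exp_zero, mul_one]

end Pool.RT
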