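import Pool.Agent.H20.RT.Stmts

/-! Row Z1 of board rt (MP_a315fd_nt): the step of the nine-run word. -/

set_option autoImplicit false

namespace Pool.RT

theorem z1_rep (k d : ℕ) : ((Nat.ofDigits 10 (List.replicate k d) : ℕ) : ℚ) =
    d * (10 ^ k - 1) / 9 := by
  induction k with
  | zero => simp
  | succ k ih =>
    rw [List.replicate_succ, Nat.ofDigits_cons, Nat.cast_add, Nat.cast_mul, ih]
    simp only [Nat.cast_id, Nat.cast_ofNat]
    ring

theorem z1_app (l m : List ℕ) : ((Nat.ofDigits 10 (l ++ m) : ℕ) : ℚ) =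
    ((Nat.ofDigits 10 l : ℕ) : ℚ) + 10 ^ l.length * ((Nat.ofDigits 10 m : ℕ) : ℚ) := by
  rw [Nat.ofDigits_append, Nat.cast_add, Nat.cast_mul]
  push_cast
  rfl

theorem Z1_thm (h1 : STPStmt) : Z1Stmt := by
  intro M b e hM
  obtain ⟨N, rfl⟩ : ∃ N, M = N + 1 := ⟨M - 1, by omega⟩
  refine h1 (wl (N + 1) (N + 1) (N + 1) (N + 1) (b + e) (N + 1 + b) (N + 1) (N + 1) (N + 1))
    (0 :: (List.replicate (4 * N + 3) 1 ++ (List.replicate b 2 ++ (List.replicate e 1 ++
      (List.replicate b 2 ++ List.replicate (4 * N + 5) 1))))) _ _ _ _ _ _ _ _ _ ?_ ?_ ?_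
      ?_ ?_ ?_ ?_ ?_ ?_ ?_ ?_ ?_
  · intro x hx
    simp only [wl, List.mem_append, List.mem_replicate] at hx
    omega
  · intro x hx
    simp only [List.mem_cons, List.mem_append, List.mem_replicate] at hx
    omega
  · have key : ((Nat.ofDigits 10 (wl (N + 1) (N + 1) (N + 1) (N + 1) (b + e) (N + 1 + b) (N + 1)
        (N + 1) (N + 1)) + Nat.ofDigits 10 (wl (N + 1) (N + 1) (N + 1) (N + 1) (b + e) (N + 1 + b)
        (N + 1) (N + 1) (N + 1)).reverse : ℕ) : ℚ) =
        ((Nat.ofDigits 10 (0 :: (List.replicate (4 * N + 3) 1 ++ (List.replicate b 2 ++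
        (List.replicate e 1 ++ (List.replicate b 2 ++ List.replicate (4 * N + 5) 1))))) : ℕ) : ℚ) := by
      simp only [wl, List.reverse_append, List.reverse_replicate, List.append_assoc,
        Nat.ofDigits_cons, Nat.cast_add, Nat.cast_mul, z1_app, z1_rep, List.length_replicate]
      push_cast
      ring
    exact_mod_cast key
  all_goals
    simp [List.count_append, List.count_replicate]
  all_goals omega

end Pool.RT
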